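import Pool.Agent.H429.T3.F1

/-!
# Curves over an intermediate field of a Galois 2-extension
-/

set_option autoImplicit false
set_option linter.all false

open IsDedekindDomain NumberField Module Polynomial WeierstrassCurve WeierstrassCurve.Affine
open scoped Classical IntermediateField

namespace Pool.Agent.H429.T4

open Pool.Agent.H429.T3

/-- The hypotheses on the cubic extension `L` and the extension `M` of the base field. -/
structure Tow {F : Type} [Field F] [NumberField F] (f : F[X]) (L : Type) [Field L]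
    [NumberField L] [Algebra F L] (M : Type) [Field M] [NumberField M] [Algebra F M] : Prop where
  monic : f.Monic
  natDeg : f.natDegree = 3
  deg : finrank F L = 3
  root : ∃ θ : L, aeval θ f = 0
  lirr : ∀ τ : F →+* Q2bar, Irreducible (f.map (toLoc ℚ_[2] τ))
  sel : ∀ x : L, Strict F x → IsSquare x
  ram : ∀ v : HeightOneSpectrum (𝓞 F), (2 : 𝓞 F) ∉ v.asIdeal → Unram M v ∨ OnePrime L v

/-- The hypotheses on the curve. -/
structure Cur {K : Type} [Field K] [NumberField K] (V : WeierstrassCurve K) (T : Type) [Field T]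
    [NumberField T] [Algebra K T] (M : Type) [Field M] [NumberField M] [Algebra K M] : Prop where
  w1 : V.a₁ = 0
  w3 : V.a₃ = 0
  disc : V.Δ ≠ 0
  deg : finrank K T = 3
  root : ∃ θ : T, aeval θ (cub V) = 0
  irr : Irreducible (cub V)
  ram : ∀ v : HeightOneSpectrum (𝓞 K), (2 : 𝓞 K) ∉ v.asIdeal →
    (Good V v ∧ Unram M v) ∨ OnePrime T v

section main

variable {F L K T M : Type} [Field F] [NumberField F] [Field L] [NumberField L] [Field M]
  [NumberField M] [Algebra F L] [Algebra F M] [IsGalois F M] [Field K] [NumberField K]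
  [Field T] [NumberField T] [Algebra F K] [Algebra K M] [IsScalarTower F K M] [Algebra F T]
  [Algebra L T] [Algebra K T] [IsScalarTower F L T] [IsScalarTower F K T]
  {f : F[X]} {V : WeierstrassCurve K}

theorem Tow.irr (h : Tow f L M) : Irreducible f := by
  let τ : F →+* Q2bar := (IsAlgClosed.lift (R := ℚ) : F →ₐ[ℚ] Q2bar)
  exact h.monic.irreducible_of_irreducible_map _ _ (h.lirr τ)

theorem exists_pow {n : ℕ} (hM : finrank F M = 2 ^ n) : ∃ j : ℕ, finrank K M = 2 ^ j := by
  have h1 := Module.finrank_mul_finrank F K M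
  have h2 : finrank K M ∣ 2 ^ n := ⟨finrank F K, by rw [← hM, ← h1, mul_comm]⟩
  obtain ⟨j, _, hj⟩ := (Nat.dvd_prime_pow Nat.prime_two).1 h2
  exact ⟨j, hj⟩

theorem two_div (h : Tow f L M) (hc : Cur V T M) {n : ℕ} (hM : finrank F M = 2 ^ n)
    (P : (V.map (algebraMap K M)).toAffine.Point)
    (hP : ∀ τ : M →+* Q2bar, ∃ Q, mp (V.map (algebraMap K M)) (toLoc ℚ_[2] τ) P = Q + Q) :
    ∃ Q, P = Q + Q := by
  haveI hKM : IsGalois K M := IsGalois.tower_top_of_isGalois F K M
  obtain ⟨j, hj⟩ := exists_pow (K := K) hM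
  obtain ⟨θ, hθ⟩ := h.root
  obtain ⟨η, hη⟩ := hc.root
  obtain ⟨g, hg⟩ : ∃ g, g = cub V := ⟨_, rfl⟩
  have hgm : g.Monic := hg ▸ cub_monic V
  have hgd : g.natDegree = 3 := hg ▸ cub_deg V
  have hfm := h.monic
  have hfd := h.natDeg
  have hodd : Odd f.natDegree := by
    rw [hfd]
    decide
  have hoddg : Odd g.natDegree := by
    rw [hgd]
    decide
  have hL : Odd (finrank F L) := by
    rw [h.deg]
    decide
  have hT : Odd (finrank K T) := by
    rw [hc.deg]
    decide
  rw [← hg] at hη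
  have hirr : Irreducible f := h.irr
  have hirrg : Irreducible g := hg ▸ hc.irr
  have hirrM : Irreducible (f.map (algebraMap F M)) := irr_up hM hirr hfm hodd
  have hirrgM : Irreducible (g.map (algebraMap K M)) := irr_up hj hirrg hgm hoddg
  -- the field `L`
  have hminL : minpoly F θ = f := (minpoly.eq_of_irreducible_of_monic hirr hθ hfm).symm
  have htopL : Algebra.adjoin F {θ} = ⊤ := adjoin_top hminL (by rw [hfd, h.deg])
  -- the field `T`
  have hminT : minpoly K η = g := (minpoly.eq_of_irreducible_of_monic hirrg hη hgm).symm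
  have htopT : Algebra.adjoin K {η} = ⊤ := adjoin_top hminT (by rw [hgd, hc.deg])
  -- the field `Ω`
  obtain ⟨Ω, instF, instA, t, ht, hrk, htop, hfin, hminΩ⟩ := exists_field hirrgM (hgm.map _)
  haveI : CharZero Ω := charZero_of_injective_algebraMap (algebraMap M Ω).injective
  haveI : FiniteDimensional ℚ Ω := FiniteDimensional.trans ℚ M Ω
  haveI : NumberField Ω := NumberField.mk
  letI : Algebra K Ω := ((algebraMap M Ω).comp (algebraMap K M)).toAlgebra
  haveI : IsScalarTower K M Ω := IsScalarTower.of_algebraMap_eq' rfl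
  letI : Algebra F Ω := ((algebraMap M Ω).comp (algebraMap F M)).toAlgebra
  haveI : IsScalarTower F M Ω := IsScalarTower.of_algebraMap_eq' rfl
  have ht' : aeval t g = 0 := by
    rw [aeval_map_algebraMap] at ht
    exact ht
  let pb := PowerBasis.ofAdjoinEqTop (IsIntegral.of_finite K η) htopT
  have hgen : pb.gen = η := PowerBasis.ofAdjoinEqTop_gen _ _
  let ι : T →ₐ[K] Ω := pb.lift t (by rw [hgen, hminT, ht'])
  have hι : ι η = t := by
    have h5 : ι pb.gen = t := pb.lift_gen t _
    rw [hgen] at h5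
    exact h5
  letI : Algebra T Ω := ι.toRingHom.toAlgebra
  haveI : IsScalarTower K T Ω := IsScalarTower.of_algebraMap_eq fun x => (ι.commutes x).symm
  letI : Algebra L Ω := ((algebraMap T Ω).comp (algebraMap L T)).toAlgebra
  haveI : IsScalarTower F L Ω := IsScalarTower.of_algebraMap_eq fun x => by
    change algebraMap M Ω (algebraMap F M x) = algebraMap T Ω (algebraMap L T (algebraMap F L x))
    rw [← IsScalarTower.algebraMap_apply F L T, IsScalarTower.algebraMap_apply F K T,
      ← IsScalarTower.algebraMap_apply K T Ω, IsScalarTower.algebraMap_apply F K M]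
    rfl
  have hTt : algebraMap T Ω η = t := hι
  have hdM : (g.map (algebraMap K M)).natDegree = 3 := by rw [hgm.natDegree_map, hgd]
  have hΩT : finrank M Ω = finrank K T := by
    rw [hrk, hdM, hc.deg]
  have hΩ : finrank M Ω = finrank F L := by
    rw [hrk, hdM, h.deg]
  have htopΩ : Algebra.adjoin M {t} = ⊤ := adjoin_top hminΩ (by rw [hrk])
  -- the generator of `L`
  have hθΩ : aeval (algebraMap L Ω θ) (f.map (algebraMap F M)) = 0 := by
    rw [aeval_map_algebraMap, aeval_algebraMap_apply, hθ, map_zero]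
  have hminθ : minpoly M (algebraMap L Ω θ) = f.map (algebraMap F M) :=
    (minpoly.eq_of_irreducible_of_monic hirrM hθΩ (hfm.map _)).symm
  have htopθ : Algebra.adjoin M {algebraMap L Ω θ} = ⊤ :=
    adjoin_top hminθ (by rw [hfm.natDegree_map, hfd, hrk, hdM])
  match P, hP with
  | 0, _ => exact ⟨0, by rw [add_zero]⟩
  | Point.some x y hxy, hP =>
    have hxy' : y ^ 2 = (cub (V.map (algebraMap K M))).eval x := by
      rw [eval_cub]
      refine (T3.equation_iff' ?_ ?_).1 hxy.1
      · change algebraMap K M V.a₁ = 0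
        rw [hc.w1, map_zero]
      · change algebraMap K M V.a₃ = 0
        rw [hc.w3, map_zero]
    have hne : algebraMap M Ω x - t ≠ 0 := by
      intro h0
      have h1 := lin_indep (u := x) (v := -1) (w := 0) hdM hminΩ (by
        rw [map_neg, map_one, map_zero]
        linear_combination h0)
      exact absurd h1.2.1 (by simp)
    have hN : IsSquare (Algebra.norm M (algebraMap M Ω x - t)) := by
      rw [norm_sub hminΩ htopΩ, hg, ← cub_map, ← hxy']
      exact ⟨y, pow_two y⟩
    have hstrict : Strict M (algebraMap M Ω x - t) := by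
      refine ⟨hne, hN, fun 𝔔 h𝔔 => ?_, ?_⟩
      · refine even_point (F := K) (L := T) hj hT hΩT V hc.w1 hc.w3 (by rw [← hg, ht'])
          hc.ram hxy' hne hN 𝔔 h𝔔
      · intro τ
        obtain ⟨Q, hQ⟩ := hP (τ.comp (algebraMap M Ω))
        obtain ⟨h', e'⟩ := mp_some (V.map (algebraMap K M))
          (toLoc ℚ_[2] (τ.comp (algebraMap M Ω))) hxy
        rw [e'] at hQ
        have h2 : (2 : loc ℚ_[2] (τ.comp (algebraMap M Ω))) ≠ 0 := two_ne_zero
        have hw1 : (toLoc ℚ_[2] (τ.comp (algebraMap M Ω))) (algebraMap K M V.a₁) = 0 := by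
          rw [hc.w1, map_zero, map_zero]
        have hw3 : (toLoc ℚ_[2] (τ.comp (algebraMap M Ω))) (algebraMap K M V.a₃) = 0 := by
          rw [hc.w3, map_zero, map_zero]
        have hroot : (τ t) ^ 3 + τ (algebraMap K Ω V.a₂) * (τ t) ^ 2 +
            τ (algebraMap K Ω V.a₄) * τ t + τ (algebraMap K Ω V.a₆) = 0 := by
          have := ht'
          rw [hg, aeval_cub] at this
          have := congrArg τ this
          simpa using this
        obtain ⟨X₀, Y₀, hY₀, hE, hsq⟩ := sq_of_double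
          (algebraMap (loc ℚ_[2] (τ.comp (algebraMap M Ω))) Q2bar) h2 hw1 hw3 h' Q hQ
          (T := τ t) hroot
        have hle := loc_mono ℚ_[2] τ (algebraMap M Ω)
        have hXm : (X₀ : Q2bar) ∈ loc ℚ_[2] τ := hle X₀.2
        have hYm : (Y₀ : Q2bar) ∈ loc ℚ_[2] τ := hle Y₀.2
        have hTm : τ t ∈ loc ℚ_[2] τ := mem_loc _ _ _
        have hnat : ∀ k : ℕ, (k : Q2bar) ∈ loc ℚ_[2] τ := fun k => natCast_mem _ k
        have h2m : (2 : Q2bar) ∈ loc ℚ_[2] τ := by exact_mod_cast hnat 2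
        have h3m : (3 : Q2bar) ∈ loc ℚ_[2] τ := by exact_mod_cast hnat 3
        refine ⟨_, ?_, (map_sub τ _ _).trans hsq⟩
        · refine div_mem (sub_mem (pow_mem (sub_mem hXm hTm) 2) (add_mem (add_mem
            (mul_mem h3m (pow_mem hTm 2)) (mul_mem (mul_mem h2m ?_) hTm)) ?_)) (mul_mem h2m hYm)
          · exact mem_loc ℚ_[2] τ (algebraMap K Ω V.a₂)
          · exact mem_loc ℚ_[2] τ (algebraMap K Ω V.a₄)
    obtain ⟨s, hs⟩ := isSquare_of_strict (F := F) (L := L) hM hL hΩ hfm hodd hθ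
      (exists_poly htopL) (fun z => exists_poly htopθ z) h.sel h.lirr h.ram hstrict
    obtain ⟨u, v, w, huvw⟩ := exists_quad (hgm.map (algebraMap K M)) hdM ht htopΩ s
    refine halve (algebraMap M Ω) two_ne_zero ?_ ?_ ?_ hxy (T := t) ?_
      (fun u v w h0 => lin_indep hdM hminΩ h0) (u := u) (v := v) (w := w) ?_
    · change algebraMap K M V.a₁ = 0
      rw [hc.w1, map_zero]
    · change algebraMap K M V.a₃ = 0
      rw [hc.w3, map_zero]
    · rw [WeierstrassCurve.map_Δ]
      exact (_root_.map_ne_zero _).2 hc.disc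
    · rw [hg, aeval_cub] at ht'
      exact ht'
    · rw [← huvw, hs, pow_two]

/-- There are no points of order two over the local fields of `M`. -/
theorem no_two (h : Tow f L M) (hc : Cur V T M) {n : ℕ} (hM : finrank F M = 2 ^ n)
    (τ : M →+* Q2bar)
    (Q : ((V.map (algebraMap K M)).map (toLoc ℚ_[2] τ)).toAffine.Point) (hQ : Q + Q = 0) :
    Q = 0 := by
  have h2 : (2 : loc ℚ_[2] τ) ≠ 0 := two_ne_zero
  have hw1 : ((V.map (algebraMap K M)).map (toLoc ℚ_[2] τ)).a₁ = 0 := by
    change (toLoc ℚ_[2] τ) (algebraMap K M V.a₁) = 0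
    rw [hc.w1, map_zero, map_zero]
  have hw3 : ((V.map (algebraMap K M)).map (toLoc ℚ_[2] τ)).a₃ = 0 := by
    change (toLoc ℚ_[2] τ) (algebraMap K M V.a₃) = 0
    rw [hc.w3, map_zero, map_zero]
  match Q, hQ with
  | 0, hQ => rfl
  | Point.some X Y hXY, hQ =>
    exfalso
    by_cases hY : Y = 0
    · subst hY
      have hE := (T3.equation_iff' hw1 hw3).1 hXY.1
      have hodd : Odd f.natDegree := by
        rw [h.natDeg]
        decide
      have h1 : f.natDegree ≠ 1 := by
        rw [h.natDeg]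
        decide
      obtain ⟨θ, hθ⟩ := h.root
      obtain ⟨η, hη⟩ := hc.root
      have hminT : minpoly K η = cub V :=
        (minpoly.eq_of_irreducible_of_monic hc.irr hη (cub_monic V)).symm
      have htopT : Algebra.adjoin K {η} = ⊤ := adjoin_top hminT (by rw [cub_deg, hc.deg])
      have hE' := congrArg (algebraMap (loc ℚ_[2] τ) Q2bar) hE
      have hcoe : ∀ a : K, algebraMap (loc ℚ_[2] τ) Q2bar
          ((toLoc ℚ_[2] τ) (algebraMap K M a)) = τ (algebraMap K M a) := fun a => rfl
      have hX : algebraMap (loc ℚ_[2] τ) Q2bar X = (X : Q2bar) := rfl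
      simp only [WeierstrassCurve.map, map_add, map_mul, map_pow, hcoe, hX, map_zero] at hE'
      letI iK : Algebra K Q2bar := (τ.comp (algebraMap K M)).toAlgebra
      have hroot : aeval (X : Q2bar) (cub V) = 0 := by
        rw [aeval_cub]
        change (X : Q2bar) ^ 3 + τ (algebraMap K M V.a₂) * (X : Q2bar) ^ 2 +
          τ (algebraMap K M V.a₄) * (X : Q2bar) + τ (algebraMap K M V.a₆) = 0
        rw [← hE']
        ring
      let pb := PowerBasis.ofAdjoinEqTop (IsIntegral.of_finite K η) htopT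
      have hgen : pb.gen = η := PowerBasis.ofAdjoinEqTop_gen _ _
      let ι : T →ₐ[K] Q2bar := pb.lift (X : Q2bar) (by rw [hgen, hminT, hroot])
      have hι : ι η = (X : Q2bar) := by
        have h5 : ι pb.gen = (X : Q2bar) := pb.lift_gen _ _
        rw [hgen] at h5
        exact h5
      obtain ⟨y, hy⟩ := exists_poly htopT (algebraMap L T θ)
      have hmem : ι (algebraMap L T θ) ∈ loc ℚ_[2] τ := by
        rw [hy, ← aeval_algHom_apply, hι, aeval_eq_sum_range]
        refine sum_mem fun i _ => ?_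
        rw [Algebra.smul_def]
        exact mul_mem (mem_loc ℚ_[2] τ (algebraMap K M (y.coeff i))) (pow_mem X.2 i)
      refine no_root hM h.monic hodd h1 h.lirr τ (r := ι (algebraMap L T θ)) hmem ?_
      have h3 : aeval (algebraMap L T θ) f = 0 := by
        rw [aeval_algebraMap_apply, hθ, map_zero]
      rw [aeval_def] at h3
      have h4 := congrArg ι h3
      rw [map_zero] at h4
      rw [← h4]
      have h5 : (ι : T →+* Q2bar) (eval₂ (algebraMap F T) (algebraMap L T θ) f) =
          eval₂ ((ι : T →+* Q2bar).comp (algebraMap F T)) (ι (algebraMap L T θ)) f :=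
        Polynomial.hom_eval₂ _ _ _ _
      change eval₂ (τ.comp (algebraMap F M)) (ι (algebraMap L T θ)) f =
        (ι : T →+* Q2bar) (eval₂ (algebraMap F T) (algebraMap L T θ) f)
      rw [h5]
      congr 1
      ext x
      change τ (algebraMap F M x) = ι (algebraMap F T x)
      rw [IsScalarTower.algebraMap_apply F K T, ι.commutes, IsScalarTower.algebraMap_apply F K M]
      rfl
    · obtain ⟨y', h', e⟩ := double_x h2 hw1 hw3 hXY hY
      rw [e] at hQ
      exact absurd hQ (by simp)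

theorem pow_div (h : Tow f L M) (hc : Cur V T M) {n : ℕ} (hM : finrank F M = 2 ^ n) (k : ℕ) :
    ∀ (P : (V.map (algebraMap K M)).toAffine.Point)
    (hP : ∀ τ : M →+* Q2bar, ∃ Q, mp (V.map (algebraMap K M)) (toLoc ℚ_[2] τ) P =
      ((2 : ℤ) ^ k) • Q), ∃ Q, P = ((2 : ℤ) ^ k) • Q := by
  induction k with
  | zero =>
    intro P _
    exact ⟨P, by rw [pow_zero, one_smul]⟩
  | succ k ih =>
    intro P hP
    obtain ⟨R, hR⟩ := two_div h hc hM P (fun τ => by
      obtain ⟨Q, hQ⟩ := hP τ
      refine ⟨((2 : ℤ) ^ k) • Q, ?_⟩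
      rw [hQ, ← add_smul]
      congr 1
      ring)
    obtain ⟨S, hS⟩ := ih R (fun τ => by
      obtain ⟨Q, hQ⟩ := hP τ
      refine ⟨Q, ?_⟩
      rw [hR, map_add] at hQ
      have h0 := no_two h hc hM τ (mp (V.map (algebraMap K M)) (toLoc ℚ_[2] τ) R -
        ((2 : ℤ) ^ k) • Q) (by
          have h1 : ((2 : ℤ) ^ (k + 1)) • Q = ((2 : ℤ) ^ k) • Q + ((2 : ℤ) ^ k) • Q := by
            rw [← add_smul]
            congr 1
            ring
          rw [h1] at hQ
          rw [sub_add_sub_comm, hQ, sub_self])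
      exact sub_eq_zero.1 h0)
    refine ⟨S, ?_⟩
    rw [hR, hS, ← add_smul]
    congr 1
    ring

theorem indep (h : Tow f L M) (hc : Cur V T M) {n : ℕ} (hM : finrank F M = 2 ^ n) {r : ℕ}
    (P : Fin r → V.toAffine.Point) (hP : LinearIndependent ℤ P)
    (c : Fin r → ℤ_[2])
    (hcc : ∀ k : ℕ, ∃ m : Fin r → ℤ, (∀ i, (2 : ℤ_[2]) ^ k ∣ c i - m i) ∧
      ∀ τ : K →+* Q2bar, ∃ Q, mp V (toLoc ℚ_[2] τ) (∑ i, m i • P i) =
        ((2 : ℤ) ^ k) • Q) : c = 0 := by
  have hfg : AddGroup.FG (V.map (algebraMap K M)).toAffine.Point := by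
    refine Pool.Agent.Q286.EQ.mordell_weil M (V.map (algebraMap K M)) ?_
    rw [WeierstrassCurve.map_Δ]
    exact (_root_.map_ne_zero _).2 hc.disc
  haveI : Module.Finite ℤ (V.map (algebraMap K M)).toAffine.Point :=
    Module.Finite.iff_addGroup_fg.2 hfg
  have hP' : LinearIndependent ℤ fun i => mp V (algebraMap K M) (P i) := by
    have := hP.map' (mp V (algebraMap K M)).toIntLinearMap
      (LinearMap.ker_eq_bot.2 (mp_injective _ _))
    exact this
  refine indep_of_fg (p := 2) hP' c fun k => ?_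
  obtain ⟨m, hm, hτ⟩ := hcc k
  refine ⟨m, fun i => by exact_mod_cast hm i, ?_⟩
  have h1 : ∑ i, m i • mp V (algebraMap K M) (P i) =
      mp V (algebraMap K M) (∑ i, m i • P i) := by
    rw [map_sum]
    refine Finset.sum_congr rfl fun i _ => ?_
    rw [map_zsmul]
  rw [h1]
  refine pow_div h hc hM k _ fun τ => ?_
  rw [mp_mp]
  exact div_up V (toLoc ℚ_[2] (τ.comp (algebraMap K M)))
    (IntermediateField.inclusion (loc_mono ℚ_[2] τ (algebraMap K M))).toRingHom _ _ (hτ _)

theorem indep_compl (h : Tow f L M) (hc : Cur V T M) {n : ℕ} (hM : finrank F M = 2 ^ n) {r : ℕ}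
    (P : Fin r → V.toAffine.Point) (hP : LinearIndependent ℤ P)
    (a : Fin r → ℤ_[2])
    (ha : ∀ v : HeightOneSpectrum (𝓞 K), (2 : 𝓞 K) ∈ v.asIdeal → ∀ k : ℕ, ∃ m : Fin r → ℤ,
      (∀ i, (2 : ℤ_[2]) ^ k ∣ m i - a i) ∧
      ∃ R, mp V (algebraMap K (v.adicCompletion K)) (∑ i, m i • P i) =
        ((2 : ℤ) ^ k) • R) : a = 0 := by
  refine indep h hc hM P hP a fun k => ?_
  refine ⟨fun i => ((a i).appr k : ℤ), fun i => ?_, fun τ => ?_⟩
  · have := PadicInt.appr_spec k (a i)
    rw [Ideal.mem_span_singleton] at this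
    exact_mod_cast this
  · obtain ⟨v, hv, β, hβ⟩ := exists_place τ
    refine div_congr _ hβ (div_up _ _ _ _ _ ?_)
    obtain ⟨m, hm, R, hR⟩ := ha v hv k
    have h1 : ∀ i, ∃ d : ℤ, ((a i).appr k : ℤ) = m i + 2 ^ k * d := by
      intro i
      have h2 : (2 : ℤ_[2]) ^ k ∣ ((((a i).appr k : ℤ) - m i : ℤ) : ℤ_[2]) := by
        have h3 := PadicInt.appr_spec k (a i)
        rw [Ideal.mem_span_singleton] at h3
        have h4 : (2 : ℤ_[2]) ^ k ∣ a i - ((a i).appr k : ℤ_[2]) := by exact_mod_cast h3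
        have h5 := dvd_add (hm i) h4
        have h6 : (((((a i).appr k : ℤ) - m i : ℤ)) : ℤ_[2]) =
            -((m i : ℤ_[2]) - a i + (a i - ((a i).appr k : ℤ_[2]))) := by
          push_cast
          ring
        rw [h6]
        exact (dvd_neg (α := ℤ_[2])).2 h5
      have h7 : ((2 : ℕ) : ℤ_[2]) ^ k ∣ ((((a i).appr k : ℤ) - m i : ℤ) : ℤ_[2]) := by
        exact_mod_cast h2
      rw [PadicInt.pow_p_dvd_int_iff] at h7
      obtain ⟨d, hd⟩ := h7
      refine ⟨d, ?_⟩
      have h8 : ((a i).appr k : ℤ) - m i = 2 ^ k * d := by exact_mod_cast hd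
      linarith
    choose d hd using h1
    refine ⟨R + mp V (algebraMap K (v.adicCompletion K)) (∑ i, d i • P i), ?_⟩
    have h2 : ∑ i, ((a i).appr k : ℤ) • P i = ∑ i, m i • P i + ((2 : ℤ) ^ k) • ∑ i, d i • P i := by
      rw [Finset.smul_sum, ← Finset.sum_add_distrib]
      refine Finset.sum_congr rfl fun i _ => ?_
      rw [hd, add_smul, mul_smul]
    rw [h2, map_add, hR, map_zsmul, smul_add]

theorem no_torsion (h : Tow f L M) (hc : Cur V T M) {n : ℕ} (hM : finrank F M = 2 ^ n) (k : ℕ) :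
    ∀ S : (V.map (algebraMap K M)).toAffine.Point, ((2 : ℤ) ^ k) • S = 0 → S = 0 := by
  induction k with
  | zero =>
    intro S hS
    rwa [pow_zero, one_smul] at hS
  | succ k ih =>
    intro S hS
    let τ : M →+* Q2bar := (IsAlgClosed.lift (R := ℚ) : M →ₐ[ℚ] Q2bar)
    have h1 : ((2 : ℤ) ^ k) • (S + S) = 0 := by
      rw [← hS, ← two_zsmul, smul_smul, pow_succ]
    have h2 := ih _ h1
    have h3 := no_two h hc hM τ (mp _ (toLoc ℚ_[2] τ) S) (by rw [← map_add, h2, _root_.map_zero])
    exact mp_injective _ (toLoc ℚ_[2] τ) (by rw [h3, _root_.map_zero])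

theorem sat (h : Tow f L M) (hc : Cur V T M) {n : ℕ} (hM : finrank F M = 2 ^ n) (k : ℕ)
    (P : V.toAffine.Point)
    (hP : ∀ τ : K →+* Q2bar, ∃ Q, mp V (toLoc ℚ_[2] τ) P =
      ((2 : ℤ) ^ k) • Q) : ∃ Q, P = ((2 : ℤ) ^ k) • Q := by
  haveI : IsGalois K M := IsGalois.tower_top_of_isGalois F K M
  haveI : FiniteDimensional K M := FiniteDimensional.right F K M
  refine descend V _ (no_torsion h hc hM k) P (pow_div h hc hM k _ fun τ => ?_)
  rw [mp_mp]
  exact div_up V (toLoc ℚ_[2] (τ.comp (algebraMap K M)))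
    (IntermediateField.inclusion (loc_mono ℚ_[2] τ (algebraMap K M))).toRingHom _ _ (hP _)

theorem sat_compl (h : Tow f L M) (hc : Cur V T M) {n : ℕ} (hM : finrank F M = 2 ^ n) (k : ℕ)
    (P : V.toAffine.Point)
    (hP : ∀ v : HeightOneSpectrum (𝓞 K), (2 : 𝓞 K) ∈ v.asIdeal →
      ∃ R, mp V (algebraMap K (v.adicCompletion K)) P =
        ((2 : ℤ) ^ k) • R) : ∃ Q, P = ((2 : ℤ) ^ k) • Q := by
  refine sat h hc hM k P fun τ => ?_
  obtain ⟨v, hv, β, hβ⟩ := exists_place τ
  exact div_congr _ hβ (div_up _ _ _ _ _ (hP v hv))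

end main

end Pool.Agent.H429.T4
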