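import Pool.Agent.H429.T4.A1

/-!
# The hypotheses in terms of the base field
-/

set_option autoImplicit false
set_option linter.all false

open IsDedekindDomain NumberField Module Polynomial WeierstrassCurve WeierstrassCurve.Affine Ideal
open scoped Classical IntermediateField

namespace Pool.Agent.H429.T4

open Pool.Agent.H429.T3

section gal

variable {F L K T M : Type} [Field F] [NumberField F] [Field L] [NumberField L] [Field M]
  [NumberField M] [Algebra F L] [Algebra F M] [IsGalois F M] [Field K] [NumberField K]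
  [Field T] [NumberField T] [Algebra F K] [Algebra K M] [IsScalarTower F K M] [Algebra F T]
  [Algebra L T] [Algebra K T] [IsScalarTower F L T] [IsScalarTower F K T]

theorem ef_dvd' {n : ℕ} (hM : finrank F M = 2 ^ n) (w : HeightOneSpectrum (𝓞 K)) :
    w.asIdeal.ramificationIdx (𝓞 F) * w.asIdeal.inertiaDeg (𝓞 F) ∣ 2 ^ n := by
  obtain ⟨w', hw'⟩ := exists_over (L := M) w
  haveI i1 : w'.asIdeal.LiesOver w.asIdeal := hw'
  have e1 := ramificationIdx_tower (R := 𝓞 F) w.asIdeal w'.asIdeal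
  have e3 := inertiaDeg_tower (R := 𝓞 F) w.asIdeal w'.asIdeal
  refine dvd_trans ?_ (ef_dvd hM w')
  rw [e1, e3]
  exact mul_dvd_mul (dvd_mul_right _ _) (dvd_mul_right _ _)

theorem unram_top {v : HeightOneSpectrum (𝓞 F)} (h : Unram M v) {w : HeightOneSpectrum (𝓞 K)}
    (hw : Over v w) : Unram M w := by
  intro w' hw'
  haveI i1 : w'.asIdeal.LiesOver w.asIdeal := hw'
  have e1 := ramificationIdx_tower (R := 𝓞 F) w.asIdeal w'.asIdeal
  rw [h w' (hw.trans hw')] at e1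
  exact Nat.eq_one_of_mul_eq_one_left e1.symm

/-- If there is only one prime of `L` over `v`, then there is only one prime of `T` over every
prime of `K` over `v`. -/
theorem one_up {n : ℕ} (hM : finrank F M = 2 ^ n) (hL : Odd (finrank F L))
    (hT : finrank K T = finrank F L) {v : HeightOneSpectrum (𝓞 F)}
    (huniq : OnePrime L v) {w : HeightOneSpectrum (𝓞 K)} (hw : Over v w) : OnePrime T w := by
  intro 𝔔 𝔔' h1 h2
  by_contra hne
  obtain ⟨𝔓, h𝔓⟩ := exists_under (F := L) 𝔔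
  obtain ⟨v', hv'⟩ := exists_under (F := F) 𝔓
  obtain rfl : v = v' := (hw.trans h1).eq (hv'.trans h𝔓)
  haveI i1 : 𝔔.asIdeal.LiesOver w.asIdeal := h1
  haveI i2 : 𝔔.asIdeal.LiesOver 𝔓.asIdeal := h𝔓
  have e1 := ramificationIdx_tower (R := 𝓞 F) w.asIdeal 𝔔.asIdeal
  have e2 := ramificationIdx_tower (R := 𝓞 F) 𝔓.asIdeal 𝔔.asIdeal
  have e3 := inertiaDeg_tower (R := 𝓞 F) w.asIdeal 𝔔.asIdeal
  have e4 := inertiaDeg_tower (R := 𝓞 F) 𝔓.asIdeal 𝔔.asIdeal
  have e5 := ef_eq v hv' fun 𝔓' h => huniq 𝔓' 𝔓 h hv'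
  have e6 := ef_dvd' (M := M) hM w
  have hL0 : 0 < finrank F L := hL.pos
  have h3 : finrank F L ∣ (w.asIdeal.ramificationIdx (𝓞 F) * w.asIdeal.inertiaDeg (𝓞 F)) *
      (𝔔.asIdeal.ramificationIdx (𝓞 K) * 𝔔.asIdeal.inertiaDeg (𝓞 K)) := by
    refine ⟨𝔔.asIdeal.ramificationIdx (𝓞 L) * 𝔔.asIdeal.inertiaDeg (𝓞 L), ?_⟩
    calc _ = (w.asIdeal.ramificationIdx (𝓞 F) * 𝔔.asIdeal.ramificationIdx (𝓞 K)) *
        (w.asIdeal.inertiaDeg (𝓞 F) * 𝔔.asIdeal.inertiaDeg (𝓞 K)) := by ring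
      _ = (𝔓.asIdeal.ramificationIdx (𝓞 F) * 𝔔.asIdeal.ramificationIdx (𝓞 L)) *
        (𝔓.asIdeal.inertiaDeg (𝓞 F) * 𝔔.asIdeal.inertiaDeg (𝓞 L)) := by
          rw [← e1, ← e3, ← e2, ← e4]
      _ = _ := by rw [← e5]; ring
  have h4 : finrank F L ∣ 𝔔.asIdeal.ramificationIdx (𝓞 K) * 𝔔.asIdeal.inertiaDeg (𝓞 K) := by
    refine Nat.Coprime.dvd_of_dvd_mul_left ?_ h3
    exact Nat.Coprime.coprime_dvd_right e6 (Nat.Coprime.pow_right n (Nat.coprime_two_right.2 hL))
  have h5 := Nat.le_of_dvd (Nat.mul_pos (e_pos (F := K) 𝔔) (f_pos (F := K) 𝔔)) h4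
  have h6 := Nat.mul_pos (e_pos (F := K) 𝔔') (f_pos (F := K) 𝔔')
  haveI := w.isPrime
  have h7 := sum_ramification_inertia_eq_finrank w.asIdeal (𝓞 T)
  rw [← IsFractionRing.finrank_eq (𝓞 K) K (𝓞 T) T, hT] at h7
  let q : primesOver w.asIdeal (𝓞 T) := ⟨𝔔.asIdeal, 𝔔.isPrime, h1⟩
  let q' : primesOver w.asIdeal (𝓞 T) := ⟨𝔔'.asIdeal, 𝔔'.isPrime, h2⟩
  have hqq : q ≠ q' := by
    intro h
    apply hne
    exact HeightOneSpectrum.ext (congrArg Subtype.val h)
  have h8 := Finset.sum_le_sum_of_subset (f := fun q : primesOver w.asIdeal (𝓞 T) =>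
    q.1.ramificationIdx (𝓞 K) * q.1.inertiaDeg (𝓞 K)) (Finset.subset_univ {q, q'})
  rw [Finset.sum_pair hqq, h7] at h8
  change 𝔔.asIdeal.ramificationIdx (𝓞 K) * 𝔔.asIdeal.inertiaDeg (𝓞 K) +
    𝔔'.asIdeal.ramificationIdx (𝓞 K) * 𝔔'.asIdeal.inertiaDeg (𝓞 K) ≤ _ at h8
  omega

end gal

theorem irr_gen {K T : Type} [Field K] [Field T] [Algebra K T] [FiniteDimensional K T]
    (hk : finrank K T = 3) {f : K[X]}
    (hf : f.Monic) (hd : f.natDegree = 3) {θ : T} (hθ : aeval θ f = 0)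
    (hθ' : ∀ q : K, algebraMap K T q ≠ θ) : Irreducible f := by
  have hint : IsIntegral K θ := IsIntegral.of_finite K θ
  have h1 : (minpoly K θ).natDegree ∣ 3 := by
    rw [← hk]
    exact minpoly.degree_dvd hint
  have h2 : (minpoly K θ).natDegree ≠ 1 := by
    intro h
    obtain ⟨q, hq⟩ := minpoly.natDegree_eq_one_iff.1 h
    exact hθ' q hq
  have h3 : (minpoly K θ).natDegree = 3 :=
    ((Nat.dvd_prime Nat.prime_three).1 h1).resolve_left h2
  have h4 : minpoly K θ = f := by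
    refine (eq_of_monic_of_dvd_of_natDegree_le (minpoly.monic hint) hf
      (minpoly.dvd K θ hθ) ?_).symm
    rw [hd, h3]
  rw [← h4]
  exact minpoly.irreducible hint

theorem exists_hom_gen {F L : Type} [Field F] [Field L] [Algebra F L] [FiniteDimensional F L]
    (hk : finrank F L = 3) {f : F[X]}
    (hf : f.Monic) (hd : f.natDegree = 3) {θ : L} (hθ : aeval θ f = 0) (hirr : Irreducible f)
    {E : Type} [Field E] [Algebra F E] {r : E} (hr : aeval r f = 0) :
    ∃ ι : L →ₐ[F] E, ι θ = r := by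
  have hmin : minpoly F θ = f := (minpoly.eq_of_irreducible_of_monic hirr hθ hf).symm
  have htop : Algebra.adjoin F {θ} = ⊤ := adjoin_top hmin (by rw [hd, hk])
  let pb := PowerBasis.ofAdjoinEqTop (IsIntegral.of_finite F θ) htop
  have hgen : pb.gen = θ := PowerBasis.ofAdjoinEqTop_gen _ _
  let ι : L →ₐ[F] E := pb.lift r (by rw [hgen, hmin, hr])
  have h5 : ι pb.gen = r := pb.lift_gen r _
  rw [hgen] at h5
  exact ⟨ι, h5⟩

/-- Irreducibility at two. -/
theorem lirr_gen {F L : Type} [Field F] [NumberField F] [Field L] [NumberField L] [Algebra F L]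
    (hk : finrank F L = 3)
    (hno : ∀ τ : L →+* Q2bar, ∃ x : L, τ x ∉ loc ℚ_[2] (τ.comp (algebraMap F L)))
    {f : F[X]} (hf : f.Monic) (hd : f.natDegree = 3) {θ : L}
    (hθ : aeval θ f = 0) (hirr : Irreducible f) (τ : F →+* Q2bar) :
    Irreducible (f.map (toLoc ℚ_[2] τ)) := by
  refine (irreducible_iff_roots_eq_zero_of_degree_le_three ?_ ?_).2 ?_
  · rw [hf.natDegree_map, hd]
    norm_num
  · rw [hf.natDegree_map, hd]
  · rw [Multiset.eq_zero_iff_forall_notMem]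
    intro r hr
    rw [mem_roots (hf.map _).ne_zero, IsRoot, eval_map] at hr
    letI : Algebra F Q2bar := τ.toAlgebra
    have h1 : aeval (r : Q2bar) f = 0 := by
      have h2 := congrArg (algebraMap (loc ℚ_[2] τ) Q2bar) hr
      rw [map_zero, hom_eval₂] at h2
      exact h2
    obtain ⟨ι, hι⟩ := exists_hom_gen hk hf hd hθ hirr h1
    have hcomp : (ι : L →+* Q2bar).comp (algebraMap F L) = τ := by
      ext x
      exact ι.commutes x
    obtain ⟨x, hx⟩ := hno (ι : L →+* Q2bar)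
    apply hx
    rw [hcomp]
    have hmin : minpoly F θ = f := (minpoly.eq_of_irreducible_of_monic hirr hθ hf).symm
    have htop : Algebra.adjoin F {θ} = ⊤ := adjoin_top hmin (by rw [hd, hk])
    obtain ⟨y, rfl⟩ := exists_poly htop x
    change ι (aeval θ y) ∈ _
    rw [← aeval_algHom_apply, hι, aeval_eq_sum_range]
    refine sum_mem fun i _ => ?_
    rw [Algebra.smul_def]
    exact mul_mem (mem_loc ℚ_[2] τ (y.coeff i)) (pow_mem r.2 i)

theorem val_exp {K : Type} [Field K] [NumberField K] (v : HeightOneSpectrum (𝓞 K)) {d : 𝓞 K}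
    (h : d ∉ v.asIdeal ^ 2) : WithZero.exp (-1 : ℤ) ≤ v.valuation K (algebraMap (𝓞 K) K d) := by
  rw [HeightOneSpectrum.valuation_of_algebraMap]
  by_contra hlt
  rw [not_le] at hlt
  apply h
  refine (HeightOneSpectrum.intValuation_le_pow_iff_mem v d 2).1 ?_
  by_cases hd : d = 0
  · rw [hd, map_zero]
    exact zero_le'
  · rw [HeightOneSpectrum.intValuation_if_neg v hd] at hlt ⊢
    rw [WithZero.exp_lt_exp] at hlt
    rw [WithZero.exp_le_exp]
    push_cast
    omega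

end Pool.Agent.H429.T4
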