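import Pool.Agent.H429.T4.A2
import Pool.Agent.H429.T3.G9

/-!
# Assembly
-/

set_option autoImplicit false
set_option linter.all false

open IsDedekindDomain NumberField Module Polynomial WeierstrassCurve WeierstrassCurve.Affine Ideal
open scoped Classical IntermediateField

namespace Pool.Agent.H429.T4

open Pool.Agent.H429.T3

/-- The hypotheses on the cubic extension. -/
structure Adm (F L : Type) [Field F] [NumberField F] [Field L] [NumberField L] [Algebra F L] :
    Prop where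
  deg : finrank F L = 3
  two : ∀ τ : L →+* Q2bar, ∃ x : L, τ x ∉ loc ℚ_[2] (τ.comp (algebraMap F L))
  sel : ∀ x : L, Strict F x → IsSquare x

section

variable {F L : Type} [Field F] [NumberField F] [Field L] [NumberField L] [Algebra F L]

theorem Adm.tow (h : Adm F L) {M : Type} [Field M] [NumberField M] [Algebra F M]
    (hr : ∀ v : HeightOneSpectrum (𝓞 F), (2 : 𝓞 F) ∉ v.asIdeal → ¬ Unram M v → OnePrime L v) :
    ∃ f : F[X], Tow f L M := by
  obtain ⟨θ, hθ⟩ := Field.exists_primitive_element F L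
  have hint : IsIntegral F θ := IsIntegral.of_finite F θ
  have hd : (minpoly F θ).natDegree = 3 := by
    rw [← h.deg]
    exact (Field.primitive_element_iff_minpoly_natDegree_eq F θ).1 hθ
  refine ⟨minpoly F θ, minpoly.monic hint, hd, h.deg, ⟨θ, minpoly.aeval F θ⟩,
    lirr_gen h.deg h.two (minpoly.monic hint) hd (minpoly.aeval F θ) (minpoly.irreducible hint),
    h.sel, fun v hv => ?_⟩
  by_cases hu : Unram M v
  · exact Or.inl hu
  · exact Or.inr (hr v hv hu)

end

/-- The curve `y ^ 2 = x ^ 3 + a x ^ 2 + b x + c`. -/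
def kcrv {K : Type} [Field K] [NumberField K] (a b c : 𝓞 K) : WeierstrassCurve K :=
  ⟨0, (a : K), 0, (b : K), (c : K)⟩

/-- The discriminant of the cubic polynomial. -/
def kdsc {K : Type} [Field K] [NumberField K] (a b c : 𝓞 K) : 𝓞 K :=
  a ^ 2 * b ^ 2 - 4 * b ^ 3 - 4 * a ^ 3 * c - 27 * c ^ 2 + 18 * a * b * c

theorem kcrv_disc {K : Type} [Field K] [NumberField K] (a b c : 𝓞 K) :
    (kcrv a b c).Δ = 16 * algebraMap (𝓞 K) K (kdsc a b c) := by
  rw [disc_eq _ rfl rfl]
  simp only [kcrv, kdsc]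
  simp only [map_add, map_sub, map_mul, map_pow, map_ofNat]

section

variable {F L K T M : Type} [Field F] [NumberField F] [Field L] [NumberField L] [Field M]
  [NumberField M] [Algebra F L] [Algebra F M] [IsGalois F M] [Field K] [NumberField K]
  [Field T] [NumberField T] [Algebra F K] [Algebra K M] [IsScalarTower F K M] [Algebra F T]
  [Algebra L T] [Algebra K T] [IsScalarTower F L T] [IsScalarTower F K T]

theorem disc_ne {a b c : K} (hT : finrank K T = 3) {θ : T}
    (hθ : θ ^ 3 + algebraMap K T a * θ ^ 2 + algebraMap K T b * θ + algebraMap K T c = 0)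
    (hθ' : ∀ q : K, algebraMap K T q ≠ θ) :
    a ^ 2 * b ^ 2 - 4 * b ^ 3 - 4 * a ^ 3 * c - 27 * c ^ 2 + 18 * a * b * c ≠ 0 := by
  intro h0
  obtain ⟨V, hV⟩ : ∃ V : WeierstrassCurve K, V = ⟨0, a, 0, b, c⟩ := ⟨_, rfl⟩
  have hroot : aeval θ (cub V) = 0 := by
    rw [aeval_cub, hV]
    exact hθ
  have hirr := irr_gen hT (cub_monic V) (cub_deg V) hroot hθ'
  have hmin : minpoly K θ = cub V :=
    (minpoly.eq_of_irreducible_of_monic hirr hroot (cub_monic _)).symm
  have h1 := congrArg (algebraMap K T) h0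
  rw [map_zero] at h1
  have h2 : algebraMap K T (a ^ 2 * b ^ 2 - 4 * b ^ 3 - 4 * a ^ 3 * c - 27 * c ^ 2 +
      18 * a * b * c) = ((algebraMap K T a + θ) ^ 2 - 4 * (algebraMap K T b +
        algebraMap K T a * θ + θ ^ 2)) *
      (3 * θ ^ 2 + 2 * algebraMap K T a * θ + algebraMap K T b) ^ 2 := by
    have hc' : algebraMap K T c = -(θ ^ 3 + algebraMap K T a * θ ^ 2 + algebraMap K T b * θ) := by
      linear_combination hθ
    simp only [map_add, map_sub, map_mul, map_pow, map_ofNat]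
    rw [hc']
    ring
  rw [h2] at h1
  rcases mul_eq_zero.1 h1 with h3 | h3
  · have h4 := lin_indep (u := a ^ 2 - 4 * b) (v := -2 * a) (w := -3)
      (cub_deg _) hmin (by
        simp only [map_sub, map_mul, map_pow, map_neg, map_ofNat]
        linear_combination h3)
    have h5 := h4.2.2
    rw [neg_eq_zero] at h5
    exact absurd h5 (by norm_num)
  · have h5 : 3 * θ ^ 2 + 2 * algebraMap K T a * θ + algebraMap K T b = 0 := by simpa using h3
    have h4 := lin_indep (u := b) (v := 2 * a) (w := 3)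
      (cub_deg _) hmin (by
        simp only [map_mul, map_ofNat]
        linear_combination h5)
    exact absurd h4.2.2 (by norm_num)

theorem Adm.cur (h : Adm F L) {n : ℕ} (hM : finrank F M = 2 ^ n) (hT : finrank K T = 3)
    (hr : ∀ v : HeightOneSpectrum (𝓞 F), (2 : 𝓞 F) ∉ v.asIdeal → ¬ Unram M v → OnePrime L v)
    {a b c : 𝓞 K} {θ : T} (hθ : θ ^ 3 + algebraMap K T a * θ ^ 2 + algebraMap K T b * θ +
      algebraMap K T c = 0)
    (hθ' : ∀ q : K, algebraMap K T q ≠ θ)
    (hd : ∀ w : HeightOneSpectrum (𝓞 K), (2 : 𝓞 K) ∉ w.asIdeal → kdsc a b c ∈ w.asIdeal ^ 2 →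
      OnePrime T w) : Cur (kcrv a b c) T M := by
  have hroot : aeval θ (cub (kcrv a b c)) = 0 := by
    rw [aeval_cub]
    exact hθ
  have hirr := irr_gen hT (cub_monic (kcrv a b c)) (cub_deg _) hroot hθ'
  refine ⟨rfl, rfl, ?_, hT, ⟨θ, hroot⟩, hirr, fun w hw => ?_⟩
  · rw [disc_eq _ rfl rfl]
    exact mul_ne_zero (by norm_num) (disc_ne hT hθ hθ')
  · by_cases hdw : kdsc a b c ∈ w.asIdeal ^ 2
    · exact Or.inr (hd w hw hdw)
    · obtain ⟨v, hv⟩ := exists_under (F := F) w
      have h2v : (2 : 𝓞 F) ∉ v.asIdeal := fun h' => hw ((two_mem_iff hv).1 h')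
      by_cases hu : Unram M v
      · refine Or.inl ⟨⟨?_, ?_, ?_, ?_⟩, unram_top hu hv⟩
        · exact w.valuation_le_one (K := K) a
        · exact w.valuation_le_one (K := K) b
        · exact w.valuation_le_one (K := K) c
        · rw [kcrv_disc, map_mul]
          have h2 : w.valuation K (2 : K) = 1 := by
            have h3 := HeightOneSpectrum.valuation_eq_one_iff_notMem (K := K) w (r := (2 : 𝓞 K))
            rw [← map_ofNat (algebraMap (𝓞 K) K) 2]
            exact h3.2 hw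
          have h16 : w.valuation K 16 = 1 := by
            rw [show (16 : K) = 2 ^ 4 by norm_num, map_pow, h2, one_pow]
          rw [h16, one_mul]
          exact val_exp w hdw
      · exact Or.inr (one_up (M := M) hM (by rw [h.deg]; decide) (by rw [hT, h.deg])
          (hr v h2v hu) hv)

theorem main (h : Adm F L) {n : ℕ} (hM : finrank F M = 2 ^ n) (hT : finrank K T = 3)
    (hr : ∀ v : HeightOneSpectrum (𝓞 F), (2 : 𝓞 F) ∉ v.asIdeal → ¬ Unram M v → OnePrime L v)
    {a b c : 𝓞 K} {θ : T} (hθ : θ ^ 3 + algebraMap K T a * θ ^ 2 + algebraMap K T b * θ +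
      algebraMap K T c = 0)
    (hθ' : ∀ q : K, algebraMap K T q ≠ θ)
    (hd : ∀ w : HeightOneSpectrum (𝓞 K), (2 : 𝓞 K) ∉ w.asIdeal → kdsc a b c ∈ w.asIdeal ^ 2 →
      OnePrime T w) :
    (∀ (k : ℕ) (P : (kcrv a b c).toAffine.Point),
      (∀ v : HeightOneSpectrum (𝓞 K), (2 : 𝓞 K) ∈ v.asIdeal →
        ∃ R, mp (kcrv a b c) (algebraMap K (v.adicCompletion K)) P = ((2 : ℤ) ^ k) • R) →
      ∃ Q, P = ((2 : ℤ) ^ k) • Q) ∧
    (∀ {r : ℕ} (P : Fin r → (kcrv a b c).toAffine.Point) (hP : LinearIndependent ℤ P)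
      (a' : Fin r → ℤ_[2])
      (ha : ∀ v : HeightOneSpectrum (𝓞 K), (2 : 𝓞 K) ∈ v.asIdeal → ∀ k : ℕ, ∃ m : Fin r → ℤ,
        (∀ i, (2 : ℤ_[2]) ^ k ∣ m i - a' i) ∧
        ∃ R, mp (kcrv a b c) (algebraMap K (v.adicCompletion K)) (∑ i, m i • P i) =
          ((2 : ℤ) ^ k) • R), a' = 0) := by
  obtain ⟨f, hf⟩ := h.tow hr
  have hc := h.cur (M := M) hM hT hr hθ hθ' hd
  exact ⟨fun k P hP => sat_compl hf hc hM k P hP, fun P hP a' ha => indep_compl hf hc hM P hP a' ha⟩

end

theorem Six.adm {g₂ g₁ : ℤ} (h : Six g₂ g₁) {L : Type} [Field L] [NumberField L]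
    (hk : finrank ℚ L = 3) {π : L}
    (hπ : π ^ 3 + g₂ * π ^ 2 + g₁ * π - 1 = 0) : Adm ℚ L := by
  refine ⟨hk, fun τ => ?_, h.sel hk hπ⟩
  by_contra hcon
  push Not at hcon
  have h1 : ∀ x : L, τ x ∈ (⊥ : IntermediateField ℚ_[2] Q2bar) := by
    intro x
    obtain ⟨y, hy⟩ := mem_bot_loc _ (hcon x)
    rw [IntermediateField.mem_bot]
    exact ⟨y, hy⟩
  exact (h.no_hom hπ).false
    ((IntermediateField.botEquiv ℚ_[2] Q2bar).toRingEquiv.toRingHom.comp (τ.codRestrict _ h1))

end Pool.Agent.H429.T4
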